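import Pool.Agent.N214.TD.Defs

/-!
# Complete intersections of diagonal forms: the product of `n` points of the curve is a point of `X_n`
-/

set_option autoImplicit false

namespace Pool.Agent.N738.TD

open Finset Polynomial
open Pool.Agent.N214.TD (IsPoint wt)

/-- The coordinatewise product of `n` points of the curve is a point of `X_n`. -/
theorem PRO (hLAG : ∀ (K : Type) [Field K] (N n : ℕ) (t : Fin N → K) (m : Fin N → ℕ)
      (y : Fin N → K), Function.Injective t → (∀ j, m j ≠ 0) → n < N →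
      (IsPoint t m n y ↔ ∃ f : K[X], f ≠ 0 ∧ f.natDegree ≤ n ∧ ∀ j, y j ^ m j = f.eval (t j))) :
    ∀ (K : Type) [Field K] (N n : ℕ) (t : Fin N → K) (m : Fin N → ℕ) (x : Fin n → Fin N → K),
      Function.Injective t → (∀ j, m j ≠ 0) → n < N → 1 < N → (∀ i, IsPoint t m 1 (x i)) →
      IsPoint t m n (fun j => ∏ i, x i j) := by
  intro K _ N n t m x ht hm hn hN hx
  have h1 : ∀ i, ∃ f : K[X], f ≠ 0 ∧ f.natDegree ≤ 1 ∧ ∀ j, x i j ^ m j = f.eval (t j) :=
    fun i => (hLAG K N 1 t m (x i) ht hm hN).1 (hx i)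
  choose f hf0 hfd hfe using h1
  refine (hLAG K N n t m _ ht hm hn).2 ⟨∏ i, f i, ?_, ?_, ?_⟩
  · exact Finset.prod_ne_zero_iff.2 fun i _ => hf0 i
  · refine (Polynomial.natDegree_prod_le _ _).trans ?_
    refine (Finset.sum_le_sum fun i _ => hfd i).trans ?_
    simp
  · intro j
    rw [Polynomial.eval_prod, ← Finset.prod_pow]
    exact Finset.prod_congr rfl fun i _ => hfe i j

end Pool.Agent.N738.TD
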