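import Pool.Agent.N214.TD.Defs

/-!
# Complete intersections of diagonal forms: smoothness
-/

set_option autoImplicit false

namespace Pool.Agent.N738.TD

open Finset Polynomial
open Pool.Agent.N214.TD (IsPoint wt)

/-- `X_n` is a smooth complete intersection: the gradients of the equations are linearly
independent at each point. -/
theorem SMO (hLAG : ∀ (K : Type) [Field K] (N n : ℕ) (t : Fin N → K) (m : Fin N → ℕ)
      (y : Fin N → K), Function.Injective t → (∀ j, m j ≠ 0) → n < N →
      (IsPoint t m n y ↔ ∃ f : K[X], f ≠ 0 ∧ f.natDegree ≤ n ∧ ∀ j, y j ^ m j = f.eval (t j))) :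
    ∀ (K : Type) [Field K] (N n m : ℕ) (t : Fin N → K) (y : Fin N → K),
      Function.Injective t → (m : K) ≠ 0 → n < N → IsPoint t (fun _ => m) n y →
      LinearIndependent K fun (k : Fin (N - n - 1)) (j : Fin N) =>
        wt t j * t j ^ (k : ℕ) * ((m : K) * y j ^ (m - 1)) := by
  classical
  intro K _ N n m t y ht hm hn hy
  have hm0 : m ≠ 0 := by
    rintro rfl
    exact hm (by simp)
  obtain ⟨f, hf0, hfd, hfe⟩ := (hLAG K N n t (fun _ => m) y ht (fun _ => hm0) hn).1 hy
  -- the number of the vanishing coordinates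
  have hZ : (univ.filter fun j => y j = 0).card ≤ n := by
    by_contra hlt
    push Not at hlt
    refine hf0 (Polynomial.eq_zero_of_degree_lt_of_eval_index_eq_zero
      (univ.filter fun j => y j = 0) (v := t) ht.injOn ?_ ?_)
    · refine lt_of_le_of_lt Polynomial.degree_le_natDegree ?_
      exact_mod_cast lt_of_le_of_lt hfd hlt
    · intro j hj
      rw [← hfe j, (Finset.mem_filter.1 hj).2]
      exact zero_pow hm0
  have hS : N - n ≤ (univ.filter fun j => ¬ y j = 0).card := by
    have h1 := Finset.card_filter_add_card_filter_not (s := (univ : Finset (Fin N)))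
      (fun j => y j = 0)
    rw [Finset.card_univ, Fintype.card_fin] at h1
    omega
  rw [Fintype.linearIndependent_iff]
  intro c hc
  obtain ⟨p, hp⟩ : ∃ p : K[X], p = ∑ k : Fin (N - n - 1), C (c k) * X ^ (k : ℕ) := ⟨_, rfl⟩
  have hp0 : p = 0 := by
    refine Polynomial.eq_zero_of_degree_lt_of_eval_index_eq_zero
      (univ.filter fun j => ¬ y j = 0) (v := t) ht.injOn ?_ ?_
    · have h1 : p.degree < ((N - n - 1 : ℕ) : WithBot ℕ) := by
        rw [hp]
        exact Polynomial.degree_sum_fin_lt c
      refine lt_of_lt_of_le h1 ?_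
      have h2 : N - n - 1 ≤ (univ.filter fun j => ¬ y j = 0).card := by omega
      exact_mod_cast h2
    · intro j hj
      have hyj : y j ≠ 0 := (Finset.mem_filter.1 hj).2
      have h1 := congrFun hc j
      rw [Finset.sum_apply] at h1
      have hw : wt t j ≠ 0 := by
        unfold wt
        refine Finset.prod_ne_zero_iff.2 fun l hl => inv_ne_zero (sub_ne_zero.2 fun h => ?_)
        exact (Finset.mem_erase.1 hl).1 (ht h).symm
      have h2 : (wt t j * ((m : K) * y j ^ (m - 1))) * p.eval (t j) = 0 := by
        rw [hp, Polynomial.eval_finsetSum, Finset.mul_sum]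
        refine Eq.trans ?_ h1
        refine Finset.sum_congr rfl fun k _ => ?_
        rw [Pi.smul_apply, smul_eq_mul, Polynomial.eval_mul, Polynomial.eval_C,
          Polynomial.eval_pow, Polynomial.eval_X]
        ring
      exact (mul_eq_zero.1 h2).resolve_left
        (mul_ne_zero hw (mul_ne_zero hm (pow_ne_zero _ hyj)))
  intro k
  have h1 : p.coeff (k : ℕ) = c k := by
    rw [hp, Polynomial.finsetSum_coeff]
    simp only [Polynomial.coeff_C_mul, Polynomial.coeff_X_pow, Fin.val_inj]
    simp
  rw [← h1, hp0, Polynomial.coeff_zero]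

end Pool.Agent.N738.TD
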