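import Pool.Agent.N643.TD.STD

set_option autoImplicit false

/-!
# Project TD (helper643): existence of references
-/

namespace Pool.Agent.N738.TD

open Set
open Pool.Agent.N643.TD

/-- `u` and `v` have the same relations with `w`. -/
def Same (M : T) (u v w : ℕ) : Prop := ∀ i, R M i u w = R M i v w ∧ R M i w u = R M i w v

variable {M : T} {n : ℕ} {y b u v w z f g : ℕ} {F F' : List ℕ}

theorem Same.refl' : Same M u u w := fun _ => ⟨rfl, rfl⟩

theorem Same.symm' (h : Same M u v w) : Same M v u w := fun i => ⟨(h i).1.symm, (h i).2.symm⟩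

theorem Same.trans' (h : Same M u v w) (h' : Same M v z w) : Same M u z w :=
  fun i => ⟨(h i).1.trans (h' i).1, (h i).2.trans (h' i).2⟩

theorem Ex_mono (h : F ⊆ F') (he : Ex M b F w) : Ex M b F' w := by
  obtain ⟨f, hf, h1⟩ := he
  exact ⟨f, h hf, h1⟩

theorem Ag_mono (h : F ⊆ F') (ha : Ag M y b F u v) : Ag M y b F' u v :=
  fun w hw h1 h2 h3 => ha w hw (fun h4 => h1 (Ex_mono h h4)) h2 h3

/-- agreement outside finitely many children -/
def sim (M : T) (y b u v : ℕ) : Prop := ∃ F : List ℕ, (∀ f ∈ F, f ∈ Se M y b) ∧ Ag M y b F u v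

theorem sim.refl' : sim M y b u u := ⟨[], by simp, fun _ _ _ _ _ => Same.refl'⟩

theorem sim.symm' (h : sim M y b u v) : sim M y b v u := by
  obtain ⟨F, h1, h2⟩ := h
  exact ⟨F, h1, fun w hw a1 a2 a3 => Same.symm' (h2 w hw a1 a3 a2)⟩

theorem sim.trans' (hv : v ∈ Se M y b) (h : sim M y b u v) (h' : sim M y b v z) :
    sim M y b u z := by
  obtain ⟨F, h1, h2⟩ := h
  obtain ⟨F', h1', h2'⟩ := h'
  refine ⟨v :: (F ++ F'), ?_, fun w hw a1 a2 a3 => ?_⟩
  · intro f hf
    rcases List.mem_cons.1 hf with rfl | hf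
    · exact hv
    rcases List.mem_append.1 hf with hf | hf
    · exact h1 f hf
    · exact h1' f hf
  · have b1 : ¬ D M v w b := fun h3 => a1 ⟨v, List.mem_cons_self, h3⟩
    have b2 : ¬ Ex M b F w := fun h3 => a1 (Ex_mono (fun x hx =>
      List.mem_cons_of_mem _ (List.mem_append_left _ hx)) h3)
    have b3 : ¬ Ex M b F' w := fun h3 => a1 (Ex_mono (fun x hx =>
      List.mem_cons_of_mem _ (List.mem_append_right _ hx)) h3)
    exact Same.trans' (h2 w hw b2 a2 b1) (h2' w hw b3 b1 a3)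

/-- children are contained in the level -/
theorem child_sub (hc : Cr M) (hu : u ∈ Se M y b) (h : D M u w b) : w ∈ Se M y b := by
  have hu1 : ¬ D M y b u := hu.1
  have hu2 : ¬ D M b u y := hu.2
  refine ⟨fun h1 => ?_, fun h1 => ?_⟩
  · rcases hc.c3 _ _ _ h1 u with h2 | h2
    · exact hu1 h2
    · exact hc.c2 _ _ _ h h2
  · rcases hc.c3 _ _ _ h1 u with h2 | h2
    · exact hc.c2 _ _ _ (hc.symm _ _ _ h) (hc.symm _ _ _ h2)
    · exact hu2 (hc.trans h1 (hc.symm _ _ _ h2))

theorem child_y (hc : Cr M) (hu : u ∈ Se M y b) (h : D M u w y) : D M u w b := by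
  rcases hc.c3 _ _ _ h b with h1 | h1
  · exact h1
  · exact absurd (hc.trans h1 (hc.symm _ _ _ h)) hu.2

theorem ne_b (hc : Cr M) (hyb : y ≠ b) (hu : u ∈ Se M y b) : u ≠ b := by
  rintro rfl
  exact hu.2 (hc.refl _ _ (Ne.symm hyb))

/-- the rows of a level -/
theorem secV (h : CsOn n M univ) (hyb : y ≠ b) (e : Fin (n + 1) → ℕ) (he : ∀ i, e i ∈ Se M y b) :
    ∃ i j, i ≠ j ∧ er M univ (Se M y b) (e i) (e j) ∧
      ∀ w, (∀ k, ¬ D M (e k) w b) → Same M (e i) (e j) w := by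
  have hc := h.cr
  obtain ⟨i, j, hij, h1⟩ := h.sec y (mem_univ _) b (mem_univ _) hyb e fun i =>
    ⟨mem_univ _, (he i).1⟩
  refine ⟨i, j, hij, er_anti ?_ h1, fun w hw => ?_⟩
  · rintro w ⟨k, hk⟩
    rcases hk with hk | hk
    · exact child_sub hc (he k) (child_y hc (he k) hk)
    · exact child_sub hc (he k) hk
  · refine h1.2.2 w (mem_univ _) ?_
    rintro ⟨k, hk⟩
    rcases hk with hk | hk
    · exact hw k (child_y hc (he k) hk)
    · exact hw k hk

/-- there are at most `n` classes -/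
theorem sim_bd (h : CsOn n M univ) (hyb : y ≠ b) (e : Fin (n + 1) → ℕ)
    (he : ∀ i, e i ∈ Se M y b) : ∃ i j, i ≠ j ∧ sim M y b (e i) (e j) := by
  obtain ⟨i, j, hij, -, h2⟩ := secV h hyb e he
  refine ⟨i, j, hij, List.ofFn e, ?_, ?_⟩
  · intro f hf
    obtain ⟨k, rfl⟩ := (List.mem_ofFn' e f).1 hf
    exact he k
  · intro w _ a1 _ _
    exact h2 w fun k hk => a1 ⟨e k, (List.mem_ofFn' e _).2 ⟨k, rfl⟩, hk⟩

open Classical in
/-- a structure whose equivalence relation is `sim` -/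
noncomputable def SM (M : T) (y b : ℕ) : T := (fun u v => decide (sim M y b u v), M.2)

theorem SM1 : (SM M y b).1 u v = true ↔ sim M y b u v := by
  classical
  exact decide_eq_true_iff

theorem exE (h : CsOn n M univ) (hyb : y ≠ b) :
    ∃ E : List ℕ, (∀ e ∈ E, e ∈ Se M y b) ∧ ∀ u ∈ Se M y b, ∃ e ∈ E, sim M y b e u := by
  have he : Eqv (SM M y b) (Se M y b) :=
    ⟨fun u _ => SM1.2 sim.refl', fun u _ v _ h1 => SM1.2 (sim.symm' (SM1.1 h1)),
      fun u _ v hv w _ h1 h2 => SM1.2 (sim.trans' hv (SM1.1 h1) (SM1.1 h2))⟩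
  obtain ⟨us, h1, -⟩ := exRp he n fun e he' => by
    obtain ⟨i, j, hij, h2⟩ := sim_bd h hyb e he'
    exact ⟨i, j, hij, SM1.2 h2⟩
  refine ⟨us, h1.sub, fun u hu => ?_⟩
  obtain ⟨e, he1, he2⟩ := h1.cov u hu
  exact ⟨e, he1, SM1.1 he2⟩

/-- the stage `l` of the recursion -/
def Stg (M : T) (y b e₀ : ℕ) (l : ℕ) (e w : ℕ → ℕ) : Prop :=
  (∀ k ≤ l, e k ∈ Se M y b ∧ sim M y b e₀ (e k)) ∧
  (∀ k ≤ l, 1 ≤ k → w k ∈ Se M y b) ∧
  (∀ k ≤ l, 1 ≤ k → ∀ m ≤ l, ¬ D M (e m) (w k) b) ∧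
  ∀ k ≤ l, ∀ j < k, ¬ Same M (e j) (e k) (w k)

/-- the uniform exceptional list of a class -/
theorem exF (h : CsOn n M univ) (hyb : y ≠ b) {e₀ : ℕ} (he₀ : e₀ ∈ Se M y b) :
    ∃ F : List ℕ, (∀ f ∈ F, f ∈ Se M y b) ∧ ∀ u ∈ Se M y b, ∀ v ∈ Se M y b, ¬ Ex M b F u →
      ¬ Ex M b F v → sim M y b e₀ u → sim M y b e₀ v → Ag M y b F u v := by
  classical
  have hc := h.cr
  by_contra hcon
  push Not at hcon
  have step : ∀ l, ∃ e w, Stg M y b e₀ l e w := by
    intro l
    induction l with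
    | zero =>
      refine ⟨fun _ => e₀, fun _ => e₀, fun k _ => ⟨he₀, sim.refl'⟩, fun k hk hk1 => ?_,
        fun k hk hk1 => ?_, fun k hk j hj => ?_⟩ <;> omega
    | succ l ih =>
      obtain ⟨e, w, s1, s2, s3, s4⟩ := ih
      -- the exceptional lists of the pairs
      have hpair : ∀ k, ∃ A : List ℕ, k ≤ l → (∀ f ∈ A, f ∈ Se M y b) ∧
          Ag M y b A (e 0) (e k) := by
        intro k
        by_cases hk : k ≤ l
        · obtain ⟨A, hA, hA'⟩ := sim.trans' he₀ (sim.symm' (s1 0 (Nat.zero_le l)).2) (s1 k hk).2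
          exact ⟨A, fun _ => ⟨hA, hA'⟩⟩
        · exact ⟨[], fun h => absurd h hk⟩
      choose A hA using hpair
      set F : List ℕ := (List.range (l + 1)).map e ++ (((List.range (l + 1)).filter
        (fun k => 1 ≤ k)).map w ++ (List.range (l + 1)).flatMap A) with hF
      have hFe : ∀ k ≤ l, e k ∈ F := fun k hk => List.mem_append_left _
        (List.mem_map.2 ⟨k, List.mem_range.2 (by omega), rfl⟩)
      have hFw : ∀ k ≤ l, 1 ≤ k → w k ∈ F := fun k hk hk1 => List.mem_append_right _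
        (List.mem_append_left _ (List.mem_map.2 ⟨k, List.mem_filter.2
          ⟨List.mem_range.2 (by omega), by simpa using hk1⟩, rfl⟩))
      have hFA : ∀ k ≤ l, A k ⊆ F := fun k hk x hx => List.mem_append_right _
        (List.mem_append_right _ (List.mem_flatMap.2 ⟨k, List.mem_range.2 (by omega), hx⟩))
      have hFV : ∀ f ∈ F, f ∈ Se M y b := by
        intro f hf
        rcases List.mem_append.1 hf with hf | hf
        · obtain ⟨k, hk, rfl⟩ := List.mem_map.1 hf
          exact (s1 k (by have := List.mem_range.1 hk; omega)).1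
        rcases List.mem_append.1 hf with hf | hf
        · obtain ⟨k, hk, rfl⟩ := List.mem_map.1 hf
          rw [List.mem_filter, List.mem_range] at hk
          exact s2 k (by omega) (by simpa using hk.2)
        · obtain ⟨k, hk, hf⟩ := List.mem_flatMap.1 hf
          exact (hA k (by have := List.mem_range.1 hk; omega)).1 f hf
      obtain ⟨u, hu, v, hv, nu, nv, eu, ev, hbad⟩ := hcon F hFV
      have hbad' : ∃ w₀ ∈ Se M y b, ¬ Ex M b F w₀ ∧ ¬ D M u w₀ b ∧ ¬ D M v w₀ b ∧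
          ¬ Same M u v w₀ := by
        by_contra hno
        push Not at hno
        exact hbad fun w₀ hw₀ a1 a2 a3 => hno w₀ hw₀ a1 a2 a3
      obtain ⟨w₀, hw₀, nw, du, dv, hd⟩ := hbad'
      have hew : ∀ k ≤ l, ¬ D M (e k) w₀ b := fun k hk hD => nw ⟨e k, hFe k hk, hD⟩
      have hee : ∀ k ≤ l, Same M (e 0) (e k) w₀ := fun k hk =>
        (hA k hk).2 w₀ hw₀ (fun h1 => nw (Ex_mono (hFA k hk) h1)) (hew 0 (Nat.zero_le _)) (hew k hk)
      obtain ⟨z, hz, nz, ez, dz, hz0⟩ : ∃ z ∈ Se M y b, ¬ Ex M b F z ∧ sim M y b e₀ z ∧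
          ¬ D M z w₀ b ∧ ¬ Same M (e 0) z w₀ := by
        by_cases h5 : Same M (e 0) u w₀
        · refine ⟨v, hv, nv, ev, dv, fun h6 => hd (Same.trans' (Same.symm' h5) h6)⟩
        · exact ⟨u, hu, nu, eu, du, h5⟩
      refine ⟨Function.update e (l + 1) z, Function.update w (l + 1) w₀, ?_, ?_, ?_, ?_⟩
      · intro k hk
        by_cases hkl : k = l + 1
        · subst hkl
          rw [Function.update_self]
          exact ⟨hz, ez⟩
        · rw [Function.update_of_ne hkl]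
          exact s1 k (by omega)
      · intro k hk hk1
        by_cases hkl : k = l + 1
        · subst hkl
          rw [Function.update_self]
          exact hw₀
        · rw [Function.update_of_ne hkl]
          exact s2 k (by omega) hk1
      · intro k hk hk1 m hm
        by_cases hkl : k = l + 1
        · subst hkl
          rw [Function.update_self]
          by_cases hml : m = l + 1
          · subst hml
            rw [Function.update_self]
            exact dz
          · rw [Function.update_of_ne hml]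
            exact hew m (by omega)
        · rw [Function.update_of_ne hkl]
          by_cases hml : m = l + 1
          · subst hml
            rw [Function.update_self]
            exact fun hD => nz ⟨w k, hFw k (by omega) hk1, hc.symm _ _ _ hD⟩
          · rw [Function.update_of_ne hml]
            exact s3 k (by omega) hk1 m (by omega)
      · intro k hk j hj
        have hjl : j ≠ l + 1 := by omega
        rw [Function.update_of_ne hjl]
        by_cases hkl : k = l + 1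
        · subst hkl
          rw [Function.update_self, Function.update_self]
          exact fun h6 => hz0 (Same.trans' (hee j (by omega)) h6)
        · rw [Function.update_of_ne hkl, Function.update_of_ne hkl]
          exact s4 k (by omega) j hj
  obtain ⟨e, w, s1, s2, s3, s4⟩ := step n
  obtain ⟨i, j, hij, -, h2⟩ := secV h hyb (fun i : Fin (n + 1) => e i.1) fun i =>
    (s1 i.1 (by omega)).1
  rcases Nat.lt_or_gt_of_ne (fun h4 : i.1 = j.1 => hij (Fin.ext h4)) with h4 | h4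
  · exact s4 j.1 (by omega) i.1 h4 (h2 (w j.1) fun k => s3 j.1 (by omega) (by omega) k.1 (by omega))
  · exact s4 i.1 (by omega) j.1 h4
      (Same.symm' (h2 (w i.1) fun k => s3 i.1 (by omega) (by omega) k.1 (by omega)))

/-- three points of the class of `e` in different children outside of `F` -/
def Three (M : T) (y b : ℕ) (F : List ℕ) (e g1 g2 g3 : ℕ) : Prop :=
  (g1 ∈ Se M y b ∧ ¬ Ex M b F g1 ∧ sim M y b e g1) ∧
  (g2 ∈ Se M y b ∧ ¬ Ex M b F g2 ∧ sim M y b e g2) ∧
  (g3 ∈ Se M y b ∧ ¬ Ex M b F g3 ∧ sim M y b e g3) ∧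
  ¬ D M g1 g2 b ∧ ¬ D M g1 g3 b ∧ ¬ D M g2 g3 b

theorem exA (F : List ℕ) (e : ℕ) : ∃ A : List ℕ, (∀ a ∈ A, a ∈ Se M y b) ∧
    ((∃ g1 g2 g3, Three M y b F e g1 g2 g3) ∨
      ∀ u ∈ Se M y b, ¬ Ex M b F u → sim M y b e u → Ex M b A u) := by
  by_cases h1 : ∃ g1 g2 g3, Three M y b F e g1 g2 g3
  · exact ⟨[], by simp, Or.inl h1⟩
  by_cases h2 : ∃ u1 ∈ Se M y b, ¬ Ex M b F u1 ∧ sim M y b e u1
  swap
  · refine ⟨[], by simp, Or.inr fun u hu hu1 hu2 => absurd ⟨u, hu, hu1, hu2⟩ h2⟩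
  obtain ⟨u1, a1, a2, a3⟩ := h2
  by_cases h3 : ∃ u2 ∈ Se M y b, ¬ Ex M b F u2 ∧ sim M y b e u2 ∧ ¬ D M u1 u2 b
  swap
  · refine ⟨[u1], by simpa using a1, Or.inr fun u hu hu1 hu2 => ?_⟩
    by_contra hcon
    exact h3 ⟨u, hu, hu1, hu2, fun h4 => hcon ⟨u1, by simp, h4⟩⟩
  obtain ⟨u2, b1, b2, b3, b4⟩ := h3
  refine ⟨[u1, u2], by simpa using ⟨a1, b1⟩, Or.inr fun u hu hu1 hu2 => ?_⟩
  by_contra hcon
  exact h1 ⟨u1, u2, u, ⟨a1, a2, a3⟩, ⟨b1, b2, b3⟩, ⟨hu, hu1, hu2⟩, b4,
    fun h4 => hcon ⟨u1, by simp, h4⟩, fun h4 => hcon ⟨u2, by simp, h4⟩⟩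

/-- **REF** -/
theorem t_REF : S_REF := by
  classical
  intro n M y b h hyb
  have hc := h.cr
  obtain ⟨E, hE, hE'⟩ := exE h hyb
  -- the exceptional lists of the classes
  have hex : ∀ e, ∃ F : List ℕ, e ∈ Se M y b → ((∀ f ∈ F, f ∈ Se M y b) ∧ ∀ u ∈ Se M y b,
      ∀ v ∈ Se M y b, ¬ Ex M b F u → ¬ Ex M b F v → sim M y b e u → sim M y b e v →
      Ag M y b F u v) := by
    intro e
    by_cases he : e ∈ Se M y b
    · obtain ⟨F, h1⟩ := exF h hyb he
      exact ⟨F, fun _ => h1⟩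
    · exact ⟨[], fun h1 => absurd h1 he⟩
  choose FF hFF using hex
  set F := E.flatMap FF with hF
  have hFs : ∀ e ∈ E, FF e ⊆ F := fun e he x hx => List.mem_flatMap.2 ⟨e, he, hx⟩
  have hFV : ∀ f ∈ F, f ∈ Se M y b := by
    intro f hf
    obtain ⟨e, he, hf⟩ := List.mem_flatMap.1 hf
    exact (hFF e (hE e he)).1 f hf
  have hA := fun e => exA (M := M) (y := y) (b := b) F e
  choose A hA1 hA2 using hA
  set F1 := F ++ E.flatMap A with hF1
  have hF1V : ∀ f ∈ F1, f ∈ Se M y b := by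
    intro f hf
    rcases List.mem_append.1 hf with hf | hf
    · exact hFV f hf
    · obtain ⟨e, he, hf⟩ := List.mem_flatMap.1 hf
      exact hA1 e f hf
  -- the three points
  have hG : ∀ e, ∃ G : List ℕ, (∀ g ∈ G, g ∈ Se M y b) ∧
      ((∃ g1 g2 g3, Three M y b F e g1 g2 g3) → ∃ g1 ∈ G, ∃ g2 ∈ G, ∃ g3 ∈ G,
        Three M y b F e g1 g2 g3) := by
    intro e
    by_cases h1 : ∃ g1 g2 g3, Three M y b F e g1 g2 g3
    · obtain ⟨g1, g2, g3, h1⟩ := h1
      refine ⟨[g1, g2, g3], ?_, fun _ => ⟨g1, by simp, g2, by simp, g3, by simp, h1⟩⟩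
      intro g hg
      simp only [List.mem_cons, List.not_mem_nil, or_false] at hg
      rcases hg with rfl | rfl | rfl
      · exact h1.1.1
      · exact h1.2.1.1
      · exact h1.2.2.1.1
    · exact ⟨[], by simp, fun h2 => absurd h2 h1⟩
  choose G hG1 hG2 using hG
  -- the rows of the exceptional children
  have hU : ∀ f, ∃ us : List ℕ, f ∈ Se M y b → Rp (pc M univ (Cn M f b)) (Cn M f b) us := by
    intro f
    by_cases hf : f ∈ Se M y b
    · obtain ⟨us, h1, -⟩ := h.exRp (ne_b hc hyb hf)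
      exact ⟨us, fun _ => h1⟩
    · exact ⟨[], fun h1 => absurd h1 hf⟩
  choose U hU using hU
  -- the rows of the level
  obtain ⟨H, hH, -⟩ := Pool.Agent.N643.TD.exRp (eqv_pc h.eqv (subset_univ (Se M y b))) n
    fun e he => by
      obtain ⟨i, j, hij, h1, -⟩ := secV h hyb e he
      exact ⟨i, j, hij, pc1.2 h1⟩
  refine ⟨F1.length, F1 ++ (E.flatMap G ++ (F1.flatMap U ++ H)), ?_⟩
  have hk : (F1 ++ (E.flatMap G ++ (F1.flatMap U ++ H))).take F1.length = F1 := by
    rw [List.take_left']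
    rfl
  constructor
  · intro g hg
    rcases List.mem_append.1 hg with hg | hg
    · exact hF1V g hg
    rcases List.mem_append.1 hg with hg | hg
    · obtain ⟨e, he, hg⟩ := List.mem_flatMap.1 hg
      exact hG1 e g hg
    rcases List.mem_append.1 hg with hg | hg
    · obtain ⟨f, hf, hg⟩ := List.mem_flatMap.1 hg
      have hfV := hF1V f hf
      exact child_sub hc hfV ((hU f hfV).sub g hg)
    · exact hH.sub g hg
  · rw [hk]
    intro u hu hex
    obtain ⟨f, hf, hfu⟩ := hex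
    have hfV := hF1V f hf
    obtain ⟨g, hg, hgu⟩ := (hU f hfV).cov u hfu
    have hfg : D M f g b := (hU f hfV).sub g hg
    refine ⟨g, List.mem_append_right _ (List.mem_append_right _ (List.mem_append_left _
      (List.mem_flatMap.2 ⟨f, hf, hg⟩))), hc.trans (hc.symm _ _ _ hfg) hfu, ?_⟩
    rw [← hc.Cn_eq hfu]
    exact pc1.1 hgu
  · rw [hk]
    intro u hu hnex
    obtain ⟨e, he, heu⟩ := hE' u hu
    have hnF : ¬ Ex M b F u := fun h1 => hnex (Ex_mono (fun x hx => List.mem_append_left _ hx) h1)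
    have hth : ∃ g1 g2 g3, Three M y b F e g1 g2 g3 := by
      rcases hA2 e with h1 | h1
      · exact h1
      · exact absurd (Ex_mono (fun x hx => List.mem_append_right _
          (List.mem_flatMap.2 ⟨e, he, hx⟩)) (h1 u hu hnF heu)) hnex
    obtain ⟨g1, hg1, g2, hg2, g3, hg3, t1, t2, t3, t4, t5, t6⟩ := hG2 e hth
    have hmem : ∀ g ∈ G e, g ∈ F1 ++ (E.flatMap G ++ (F1.flatMap U ++ H)) := fun g hg =>
      List.mem_append_right _ (List.mem_append_left _ (List.mem_flatMap.2 ⟨e, he, hg⟩))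
    have hAg : ∀ g, g ∈ Se M y b ∧ ¬ Ex M b F g ∧ sim M y b e g → Ag M y b F1 g u := by
      rintro g ⟨q1, q2, q3⟩
      refine Ag_mono (fun x hx => List.mem_append_left _ (hFs e he hx)) ((hFF e (hE e he)).2 g q1 u hu
        (fun h1 => q2 (Ex_mono (hFs e he) h1)) (fun h1 => hnF (Ex_mono (hFs e he) h1)) q3 heu)
    exact ⟨g1, hmem _ hg1, g2, hmem _ hg2, g3, hmem _ hg3, t4, t5, t6, hAg _ t1, hAg _ t2, hAg _ t3⟩
  · intro u hu
    obtain ⟨g, hg, hgu⟩ := hH.cov u hu
    exact ⟨g, List.mem_append_right _ (List.mem_append_right _ (List.mem_append_right _ hg)),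
      pc1.1 hgu⟩

end Pool.Agent.N738.TD
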